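import Mathlib

set_option autoImplicit false

/-! Numerical lemmas: the number of primes in a set with bounded product. -/

namespace Pool.Agent.U684.QC

open Finset

theorem fac_le (S : Finset ℕ) (hS : ∀ q ∈ S, 1 ≤ q) : S.card.factorial ≤ ∏ q ∈ S, q := by
  induction S using Finset.induction_on_max with
  | empty => simp
  | insert a S ha ih =>
    have hna : a ∉ S := fun h => lt_irrefl _ (ha a h)
    rw [Finset.card_insert_of_notMem hna, Finset.prod_insert hna, Nat.factorial_succ]
    refine Nat.mul_le_mul ?_ (ih fun q hq => hS q (mem_insert_of_mem hq))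
    have h1 : S ⊆ Ico 1 a := fun q hq => mem_Ico.2 ⟨hS q (mem_insert_of_mem hq), ha q hq⟩
    have h2 := Finset.card_le_card h1
    rw [Nat.card_Ico] at h2
    have h3 := hS a (mem_insert_self _ _)
    omega

theorem log_fac (n : ℕ) (hn : 1 ≤ n) : (n : ℝ) * Real.log n - n ≤ Real.log (n.factorial : ℝ) := by
  have hn0 : (0 : ℝ) < n := by exact_mod_cast hn
  have hf : (0 : ℝ) < (n.factorial : ℝ) := by exact_mod_cast n.factorial_pos
  have h1 := Real.pow_div_factorial_le_exp (n : ℝ) hn0.le n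
  have h2 : Real.log ((n : ℝ) ^ n / (n.factorial : ℝ)) ≤ (n : ℝ) := by
    have := Real.log_le_log (by positivity) h1
    rwa [Real.log_exp] at this
  rw [Real.log_div (by positivity) hf.ne', Real.log_pow] at h2
  linarith

/-- a set of positive integers with product at most `X^(1/4)` has at most `log X / log log X`
elements -/
theorem card_bd (X : ℕ) (ℓ : ℝ) (hℓ : 4 ≤ ℓ) (hX : Real.log X = Real.exp ℓ) (S : Finset ℕ)
    (hS : ∀ q ∈ S, 1 ≤ q) (hprod : (∏ q ∈ S, q) ^ 4 ≤ X) : (S.card : ℝ) ≤ Real.exp ℓ / ℓ := by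
  by_contra hcon
  push Not at hcon
  have hℓ0 : 0 < ℓ := by linarith
  have hn0 : (0 : ℝ) < S.card := lt_trans (by positivity) hcon
  have hn1 : 1 ≤ S.card := by exact_mod_cast hn0
  have h1 : 4 * Real.log (S.card.factorial : ℝ) ≤ Real.exp ℓ := by
    have a1 : ((S.card.factorial : ℝ)) ^ 4 ≤ (X : ℝ) := by
      have := (Nat.pow_le_pow_left (fac_le S hS) 4).trans hprod
      exact_mod_cast this
    have hf : (0 : ℝ) < (S.card.factorial : ℝ) := by exact_mod_cast S.card.factorial_pos
    have a2 := Real.log_le_log (by positivity) a1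
    rw [Real.log_pow, hX] at a2
    exact_mod_cast a2
  have h2 := log_fac S.card hn1
  have h3 : ℓ / 4 ≤ Real.log S.card - 1 := by
    have a1 : Real.log (Real.exp ℓ / ℓ) ≤ Real.log S.card :=
      Real.log_le_log (by positivity) hcon.le
    rw [Real.log_div (Real.exp_pos ℓ).ne' hℓ0.ne', Real.log_exp] at a1
    have a2 : Real.log ℓ ≤ ℓ / 2 := by
      have b1 : Real.log (ℓ / 2) ≤ ℓ / 2 - 1 := Real.log_le_sub_one_of_pos (by positivity)
      rw [Real.log_div hℓ0.ne' (by norm_num)] at b1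
      have b2 : Real.log 2 ≤ 1 := by
        have := Real.log_le_sub_one_of_pos (show (0 : ℝ) < 2 by norm_num)
        linarith
      linarith
    linarith
  have h4 : Real.exp ℓ / ℓ * (ℓ / 4) < (S.card : ℝ) * (Real.log S.card - 1) := by
    have a1 : Real.exp ℓ / ℓ * (ℓ / 4) < (S.card : ℝ) * (ℓ / 4) :=
      mul_lt_mul_of_pos_right hcon (by positivity)
    have a2 : (S.card : ℝ) * (ℓ / 4) ≤ (S.card : ℝ) * (Real.log S.card - 1) :=
      mul_le_mul_of_nonneg_left h3 hn0.le
    linarith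
  have h5 : Real.exp ℓ / ℓ * (ℓ / 4) = Real.exp ℓ / 4 := by
    field_simp
  rw [h5] at h4
  have h6 : (S.card : ℝ) * (Real.log S.card - 1) = (S.card : ℝ) * Real.log S.card - S.card := by
    ring
  linarith

/-- all primes up to `log X / 6` -/
theorem all_primes (X : ℕ) (hX : 1 ≤ X) :
    (∏ q ∈ (range (⌊Real.log X / 6⌋₊ + 1)).filter Nat.Prime, q) ^ 4 ≤ X := by
  set n := ⌊Real.log X / 6⌋₊ with hn
  have h1 : (∏ q ∈ (range (n + 1)).filter Nat.Prime, q) ≤ 4 ^ n := primorial_le_four_pow n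
  have hX0 : (0 : ℝ) < X := by exact_mod_cast hX
  have hlog : 0 ≤ Real.log X := Real.log_nonneg (by exact_mod_cast hX)
  have h2 : (n : ℝ) ≤ Real.log X / 6 := Nat.floor_le (by positivity)
  have h3 : (((4 ^ n) ^ 4 : ℕ) : ℝ) ≤ (X : ℝ) := by
    push_cast
    have e : ((4 : ℝ) ^ n) ^ 4 = (256 : ℝ) ^ n := by
      rw [← pow_mul, mul_comm, pow_mul]; norm_num
    rw [e, ← Real.exp_log (show (0 : ℝ) < 256 ^ n by positivity), Real.log_pow]
    rw [← Real.le_log_iff_exp_le hX0]
    have h256 : Real.log 256 ≤ 6 := by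
      have a1 : Real.log 256 = 8 * Real.log 2 := by
        rw [show (256 : ℝ) = 2 ^ 8 by norm_num, Real.log_pow]; norm_num
      have a2 := Real.log_two_lt_d9
      rw [a1]
      linarith
    have hn0 : (0 : ℝ) ≤ n := Nat.cast_nonneg n
    nlinarith
  have h4 : (4 ^ n) ^ 4 ≤ X := by exact_mod_cast h3
  exact (Nat.pow_le_pow_left h1 4).trans h4

end Pool.Agent.U684.QC
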