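import Mathlib

set_option autoImplicit false

/-! Counting squarefree integers with prescribed quadratic residue symbols, uniformly in the
moduli. -/

namespace Pool.Agent.U684.QC

open Finset

theorem jac_val (a : ℤ) (n : ℕ) : jacobiSym a n = 0 ∨ jacobiSym a n = 1 ∨ jacobiSym a n = -1 := by
  have := jacobiSym.trichotomy a n
  tauto

theorem sum_jac (q : ℕ) [Fact q.Prime] (hq : q ≠ 2) (s : ℤ) :
    ∑ t ∈ range q, jacobiSym (s * (t : ℤ)) q = 0 := by
  have h1 : ∑ t ∈ range q, jacobiSym (s * (t : ℤ)) q =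
      ∑ x : ZMod q, quadraticChar (ZMod q) (s : ZMod q) * quadraticChar (ZMod q) x := by
    refine Finset.sum_nbij' (fun t => (t : ZMod q)) ZMod.val (fun _ _ => mem_univ _)
      (fun x _ => mem_range.2 (ZMod.val_lt x)) ?_ ?_ ?_
    · intro t ht
      exact ZMod.val_cast_of_lt (mem_range.1 ht)
    · intro x _
      exact ZMod.natCast_zmod_val x
    · intro t _
      rw [← jacobiSym.legendreSym.to_jacobiSym, legendreSym, ← map_mul]
      push_cast
      rfl
  rw [h1, ← Finset.mul_sum, quadraticChar_sum_zero, mul_zero]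
  rw [ZMod.ringChar_zmod_n]
  exact hq

theorem sum_jac_sq (q : ℕ) [Fact q.Prime] (s : ℤ) (hs : s = 1 ∨ s = -1) :
    ∑ t ∈ range q, jacobiSym (s * (t : ℤ)) q ^ 2 = (q : ℤ) - 1 := by
  have hq : 0 < q := (Fact.out : q.Prime).pos
  have h0 : ∀ t ∈ range q, jacobiSym (s * (t : ℤ)) q ^ 2 = if t = 0 then 0 else 1 := by
    intro t ht
    have htq := mem_range.1 ht
    split_ifs with h
    · subst h
      have : jacobiSym (s * ((0 : ℕ) : ℤ)) q = 0 := by
        rw [Nat.cast_zero, mul_zero]
        exact jacobiSym.zero_left (Fact.out : q.Prime).one_lt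
      rw [this]; norm_num
    · have hcop : Int.gcd (s * (t : ℤ)) q = 1 := by
        have h1 : Nat.Coprime t q := by
          rw [Nat.coprime_comm, (Fact.out : q.Prime).coprime_iff_not_dvd]
          intro hd
          exact absurd (Nat.le_of_dvd (Nat.pos_of_ne_zero h) hd) (not_le.2 htq)
        rcases hs with rfl | rfl
        · rw [one_mul]
          exact_mod_cast h1
        · rw [neg_one_mul, Int.neg_gcd]
          exact_mod_cast h1
      rcases jac_val (s * (t : ℤ)) q with h2 | h2 | h2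
      · exact absurd h2 (jacobiSym.ne_zero hcop)
      · rw [h2]; norm_num
      · rw [h2]; norm_num
  rw [Finset.sum_congr rfl h0]
  have h2 : ∑ t ∈ range q, (if t = 0 then (0 : ℤ) else 1) =
      ∑ t ∈ range q, ((1 : ℤ) - if t = 0 then 1 else 0) := by
    refine Finset.sum_congr rfl fun t _ => ?_
    split_ifs <;> norm_num
  rw [h2, Finset.sum_sub_distrib, Finset.sum_ite_eq' (range q) 0]
  simp [hq]

/-- half of the invertible residues have a given symbol -/
theorem card_half (q : ℕ) (hqp : q.Prime) (hq : q ≠ 2) (s : ℤ) (hs : s = 1 ∨ s = -1) (v : ℤ)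
    (hv : v = 1 ∨ v = -1) :
    2 * (((range q).filter fun t : ℕ => jacobiSym (s * (t : ℤ)) q = v).card : ℤ) = (q : ℤ) - 1 := by
  have : Fact q.Prime := ⟨hqp⟩
  have h1 : ∑ t ∈ range q, (jacobiSym (s * (t : ℤ)) q ^ 2 + v * jacobiSym (s * (t : ℤ)) q) =
      ∑ t ∈ range q, 2 * (if jacobiSym (s * (t : ℤ)) q = v then (1 : ℤ) else 0) := by
    refine Finset.sum_congr rfl fun t _ => ?_
    rcases jac_val (s * (t : ℤ)) q with h | h | h <;> rcases hv with rfl | rfl <;> rw [h] <;>
      norm_num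
  rw [Finset.sum_add_distrib, sum_jac_sq q s hs, ← Finset.mul_sum, sum_jac q hq s,
    ← Finset.mul_sum, Finset.sum_boole] at h1
  linarith

/-- residue classes with prescribed symbols -/
theorem classes (s c0 : ℤ) (hs : s = 1 ∨ s = -1) (hc0 : c0 = 1 ∨ c0 = 5) (v : ℕ → ℤ)
    (P : Finset ℕ) (hP : ∀ q ∈ P, q.Prime ∧ q ≠ 2) (hv : ∀ q ∈ P, v q = 1 ∨ v q = -1) :
    ∃ T : Finset ℕ, (∀ t ∈ T, t < 8 * ∏ q ∈ P, q) ∧
      (∀ t ∈ T, (s * (t : ℤ)) % 8 = c0 ∧ ∀ q ∈ P, jacobiSym (s * (t : ℤ)) q = v q) ∧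
      ∏ q ∈ P, ((q : ℤ) - 1) = 2 ^ P.card * (T.card : ℤ) := by
  classical
  induction P using Finset.induction_on with
  | empty =>
    refine ⟨{(s * c0 % 8).toNat}, ?_, ?_, ?_⟩
    · intro t ht
      rw [mem_singleton] at ht
      subst ht
      rcases hs with rfl | rfl <;> rcases hc0 with rfl | rfl <;> simp
    · intro t ht
      rw [mem_singleton] at ht
      subst ht
      refine ⟨?_, by simp⟩
      rcases hs with rfl | rfl <;> rcases hc0 with rfl | rfl <;> simp
    · simp
  | insert q P hqP ih =>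
    obtain ⟨T, hT1, hT2, hT3⟩ := ih (fun p hp => hP p (mem_insert_of_mem hp))
      (fun p hp => hv p (mem_insert_of_mem hp))
    obtain ⟨hqp, hq2⟩ := hP q (mem_insert_self _ _)
    set M := 8 * ∏ p ∈ P, p with hM
    have hcop : Nat.Coprime M q := by
      rw [hM]
      refine Nat.Coprime.mul_left ?_ ?_
      · have : Nat.Coprime 2 q := (Nat.coprime_primes Nat.prime_two hqp).2 (Ne.symm hq2)
        have h8 : (8 : ℕ) = 2 ^ 3 := by norm_num
        rw [h8]
        exact Nat.Coprime.pow_left 3 this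
      · refine Nat.Coprime.prod_left fun p hp => ?_
        have hp' := hP p (mem_insert_of_mem hp)
        refine (Nat.coprime_primes hp'.1 hqp).2 ?_
        rintro rfl
        exact hqP hp
    set U := (range q).filter fun t : ℕ => jacobiSym (s * (t : ℤ)) q = v q with hU
    have hUc := card_half q hqp hq2 s hs (v q) (hv q (mem_insert_self _ _))
    set f : ℕ × ℕ → ℕ := fun x => (Nat.chineseRemainder hcop x.1 x.2 : ℕ) with hf
    have hf1 : ∀ x : ℕ × ℕ, f x ≡ x.1 [MOD M] := fun x =>
      (Nat.chineseRemainder hcop x.1 x.2).2.1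
    have hf2 : ∀ x : ℕ × ℕ, f x ≡ x.2 [MOD q] := fun x =>
      (Nat.chineseRemainder hcop x.1 x.2).2.2
    have hMpos : M ≠ 0 := by
      rw [hM]
      refine mul_ne_zero (by norm_num) (Finset.prod_ne_zero_iff.2 fun p hp => ?_)
      exact (hP p (mem_insert_of_mem hp)).1.ne_zero
    have hflt : ∀ x : ℕ × ℕ, f x < M * q := fun x =>
      Nat.chineseRemainder_lt_mul hcop x.1 x.2 hMpos hqp.ne_zero
    refine ⟨(T ×ˢ U).image f, ?_, ?_, ?_⟩
    · intro t ht
      rw [mem_image] at ht
      obtain ⟨x, _, rfl⟩ := ht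
      rw [Finset.prod_insert hqP]
      have := hflt x
      have e : 8 * (q * ∏ p ∈ P, p) = M * q := by rw [hM]; ring
      rw [e]
      exact this
    · intro t ht
      rw [mem_image] at ht
      obtain ⟨x, hx, rfl⟩ := ht
      rw [mem_product] at hx
      obtain ⟨hx1, hx2⟩ := hx
      obtain ⟨h8, hj⟩ := hT2 x.1 hx1
      have hmodM : (M : ℤ) ∣ (f x : ℤ) - (x.1 : ℤ) :=
        (Nat.modEq_iff_dvd.1 (hf1 x).symm)
      refine ⟨?_, ?_⟩
      · have h88 : (8 : ℤ) ∣ s * (f x : ℤ) - s * (x.1 : ℤ) := by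
          have : (8 : ℤ) ∣ (M : ℤ) := by rw [hM]; push_cast; exact Dvd.intro _ rfl
          have := (this.trans hmodM).mul_left s
          rwa [mul_sub] at this
        rw [← h8]
        exact Int.emod_eq_emod_iff_emod_sub_eq_zero.2 (Int.emod_eq_zero_of_dvd h88)
      · intro p hp
        rw [mem_insert] at hp
        rcases hp with rfl | hp
        · rw [hU, mem_filter] at hx2
          rw [← hx2.2]
          refine jacobiSym.mod_left' ?_
          have h1 : (p : ℤ) ∣ (f x : ℤ) - (x.2 : ℤ) := Nat.modEq_iff_dvd.1 (hf2 x).symm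
          have h2 := h1.mul_left s
          rw [mul_sub] at h2
          exact Int.emod_eq_emod_iff_emod_sub_eq_zero.2 (Int.emod_eq_zero_of_dvd h2)
        · rw [← hj p hp]
          refine jacobiSym.mod_left' ?_
          have h0 : (p : ℤ) ∣ (M : ℤ) := by
            rw [hM]
            exact_mod_cast (Finset.dvd_prod_of_mem (fun q => q) hp).mul_left 8
          have h2 := (h0.trans hmodM).mul_left s
          rw [mul_sub] at h2
          exact Int.emod_eq_emod_iff_emod_sub_eq_zero.2 (Int.emod_eq_zero_of_dvd h2)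
    · have hinj : Set.InjOn f (T ×ˢ U : Finset (ℕ × ℕ)) := by
        intro x hx y hy hxy
        rw [mem_coe, mem_product] at hx hy
        have a1 : x.1 ≡ y.1 [MOD M] := (hf1 x).symm.trans (hxy ▸ hf1 y)
        have a2 : x.2 ≡ y.2 [MOD q] := (hf2 x).symm.trans (hxy ▸ hf2 y)
        have b1 : x.1 = y.1 := Nat.ModEq.eq_of_lt_of_lt a1 (hT1 _ hx.1) (hT1 _ hy.1)
        have b2 : x.2 = y.2 := Nat.ModEq.eq_of_lt_of_lt a2 (mem_range.1 (mem_filter.1 hx.2).1)
          (mem_range.1 (mem_filter.1 hy.2).1)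
        exact Prod.ext b1 b2
      rw [Finset.card_image_of_injOn hinj, Finset.card_product, Finset.prod_insert hqP, hT3,
        Finset.card_insert_of_notMem hqP, pow_succ]
      push_cast
      rw [← hUc]
      ring

theorem hit (M n t K : ℕ) (h : Nat.Coprime M n) :
    ((range K).filter fun k => n ∣ t + M * k).card ≤ K / n + 1 := by
  have h1 : ((range K).filter fun k => n ∣ t + M * k).card ≤ (range (K / n + 1)).card := by
    refine Finset.card_le_card_of_injOn (fun k => k / n) ?_ ?_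
    · intro k hk
      rw [mem_coe, mem_filter, mem_range] at hk
      rw [mem_coe, mem_range]
      exact Nat.lt_succ_of_le (Nat.div_le_div_right hk.1.le)
    · intro k hk l hl hkl
      rw [mem_coe, mem_filter, mem_range] at hk hl
      simp only at hkl
      have e1 : t + M * k ≡ t + M * l [MOD n] :=
        ((Nat.modEq_zero_iff_dvd.2 hk.2).trans (Nat.modEq_zero_iff_dvd.2 hl.2).symm)
      have e2 : M * k ≡ M * l [MOD n] := Nat.ModEq.add_left_cancel' t e1
      have e3 : k ≡ l [MOD n] := by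
        refine Nat.ModEq.cancel_left_of_coprime ?_ e2
        rw [Nat.gcd_comm]
        exact h
      have e4 : k % n = l % n := e3
      rw [← Nat.div_add_mod k n, ← Nat.div_add_mod l n, hkl, e4]
  rwa [card_range] at h1

theorem sum_odd (J : ℕ) :
    ∑ j ∈ Icc 1 J, (1 : ℝ) / ((2 * (j : ℝ) + 1) ^ 2) ≤ 1 / 4 * (1 - 1 / ((J : ℝ) + 1)) := by
  induction J with
  | zero => simp
  | succ J ih =>
    rw [Finset.sum_Icc_succ_top (by omega)]
    have hJ : (0 : ℝ) ≤ J := Nat.cast_nonneg J
    have h1 : (1 : ℝ) / ((2 * ((J + 1 : ℕ) : ℝ) + 1) ^ 2) ≤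
        1 / 4 * (1 / ((J : ℝ) + 1) - 1 / ((J : ℝ) + 1 + 1)) := by
      push_cast
      have e : 1 / 4 * (1 / ((J : ℝ) + 1) - 1 / ((J : ℝ) + 1 + 1)) =
          1 / (4 * (((J : ℝ) + 1) * ((J : ℝ) + 2))) := by
        field_simp
        ring
      rw [e]
      apply one_div_le_one_div_of_le (by positivity)
      nlinarith
    push_cast at h1 ⊢
    linarith

/-- squarefree integers in a residue class -/
theorem sqf_class (M t K X : ℕ) (hM8 : 8 ∣ M) (ht : Nat.Coprime t M) (htM : t < M)
    (hK : M * K ≤ X) :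
    3 / 4 * (K : ℝ) - Real.sqrt X / 2 ≤
      (((range K).filter fun k => Squarefree (t + M * k)).card : ℝ) := by
  classical
  set J := Nat.sqrt X / 2 with hJ
  have hpos : ∀ k, 0 < t + M * k := by
    intro k
    rcases Nat.eq_zero_or_pos t with h | h
    · subst h
      have : M = 1 := by simpa using ht
      omega
    · omega
  have hcov : ((range K).filter fun k => ¬ Squarefree (t + M * k)) ⊆
      (Icc 1 J).biUnion fun j => if Nat.Coprime M ((2 * j + 1) ^ 2) then
        (range K).filter fun k => (2 * j + 1) ^ 2 ∣ t + M * k else ∅ := by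
    intro k hk
    rw [mem_filter, mem_range] at hk
    obtain ⟨hkK, hns⟩ := hk
    rw [Nat.squarefree_iff_prime_squarefree] at hns
    push Not at hns
    obtain ⟨q, hq, hqq⟩ := hns
    have hqM : ¬ q ∣ M := by
      intro hd
      have h1 : q ∣ t + M * k := (Dvd.intro _ rfl : q ∣ q * q).trans hqq
      have h2 : q ∣ t := (Nat.dvd_add_left (hd.mul_right k)).1 h1
      have h3 := Nat.dvd_gcd h2 hd
      rw [ht] at h3
      exact hq.one_lt.ne' (Nat.dvd_one.1 h3)
    have hq2 : q ≠ 2 := by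
      rintro rfl
      exact hqM ((by norm_num : 2 ∣ 8).trans hM8)
    have hodd := hq.odd_of_ne_two hq2
    obtain ⟨j, hj⟩ := hodd
    have hj1 : 1 ≤ j := by
      by_contra h
      have : j = 0 := by omega
      subst this
      exact hq.one_lt.ne' (by omega)
    have hle : q * q ≤ X := by
      have h1 := Nat.le_of_dvd (hpos k) hqq
      have h2 : t + M * k < M * (k + 1) := by
        rw [mul_add, mul_one]; omega
      have h3 : M * (k + 1) ≤ M * K := Nat.mul_le_mul_left _ hkK
      omega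
    have hsq : q ≤ Nat.sqrt X := Nat.le_sqrt.2 hle
    rw [mem_biUnion]
    refine ⟨j, mem_Icc.2 ⟨hj1, ?_⟩, ?_⟩
    · rw [hJ]; omega
    · have hc : Nat.Coprime M ((2 * j + 1) ^ 2) := by
        rw [← hj]
        apply Nat.Coprime.pow_right
        rw [Nat.coprime_comm, hq.coprime_iff_not_dvd]
        exact hqM
      rw [if_pos hc, mem_filter, mem_range]
      refine ⟨hkK, ?_⟩
      rw [← hj, pow_two]
      exact hqq
  have h1 : (((range K).filter fun k => ¬ Squarefree (t + M * k)).card : ℝ) ≤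
      ∑ j ∈ Icc 1 J, ((K : ℝ) * (1 / ((2 * (j : ℝ) + 1) ^ 2)) + 1) := by
    refine le_trans (Nat.cast_le.2 ((Finset.card_le_card hcov).trans Finset.card_biUnion_le)) ?_
    push_cast
    refine Finset.sum_le_sum fun j _ => ?_
    split_ifs with h
    · have h2 := hit M ((2 * j + 1) ^ 2) t K h
      have h3 : ((K / (2 * j + 1) ^ 2 : ℕ) : ℝ) ≤ (K : ℝ) / (((2 * j + 1) ^ 2 : ℕ) : ℝ) :=
        Nat.cast_div_le
      have h4 : (((range K).filter fun k => (2 * j + 1) ^ 2 ∣ t + M * k).card : ℝ) ≤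
          ((K / (2 * j + 1) ^ 2 : ℕ) : ℝ) + 1 := by exact_mod_cast h2
      push_cast at h3
      rw [mul_one_div]
      linarith
    · simp only [card_empty, Nat.cast_zero]
      positivity
  rw [Finset.sum_add_distrib, ← Finset.mul_sum, Finset.sum_const, nsmul_eq_mul, mul_one,
    Nat.card_Icc] at h1
  have h2 := sum_odd J
  have h3 : (K : ℝ) * ∑ j ∈ Icc 1 J, (1 : ℝ) / ((2 * (j : ℝ) + 1) ^ 2) ≤ (K : ℝ) * (1 / 4) := by
    apply mul_le_mul_of_nonneg_left _ (Nat.cast_nonneg K)
    have : (0 : ℝ) ≤ 1 / ((J : ℝ) + 1) := by positivity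
    linarith
  have h4 : ((J + 1 - 1 : ℕ) : ℝ) ≤ Real.sqrt X / 2 := by
    rw [Nat.add_sub_cancel, hJ]
    have a1 : ((Nat.sqrt X / 2 : ℕ) : ℝ) ≤ ((Nat.sqrt X : ℕ) : ℝ) / ((2 : ℕ) : ℝ) := Nat.cast_div_le
    have a2 : ((Nat.sqrt X : ℕ) : ℝ) ≤ Real.sqrt X := Real.nat_sqrt_le_real_sqrt
    push_cast at a1
    linarith
  have h5 : (((range K).filter fun k => Squarefree (t + M * k)).card : ℝ) +
      (((range K).filter fun k => ¬ Squarefree (t + M * k)).card : ℝ) = K := by
    have := Finset.card_filter_add_card_filter_not (s := range K)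
      (fun k => Squarefree (t + M * k))
    rw [card_range] at this
    exact_mod_cast this
  linarith

end Pool.Agent.U684.QC
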