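import Pool.Agent.U684.QC.Cnt

set_option autoImplicit false

/-! The lower bound for the number of squarefree integers with prescribed symbols. -/

namespace Pool.Agent.U684.QC

open Finset

theorem sq_one (s : ℤ) (hs : s = 1 ∨ s = -1) (m : ℕ) (hm : Squarefree m)
    (h : IsSquare (s * (m : ℤ))) : m = 1 := by
  obtain ⟨z, hz⟩ := h
  have h1 : m = z.natAbs * z.natAbs := by
    have h2 := congrArg Int.natAbs hz
    rw [Int.natAbs_mul, Int.natAbs_mul, Int.natAbs_natCast] at h2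
    rcases hs with rfl | rfl
    · simpa using h2
    · simpa using h2
  have h3 : IsUnit z.natAbs := hm z.natAbs ⟨1, by rw [mul_one]; exact h1⟩
  rw [Nat.isUnit_iff] at h3
  rw [h1, h3]

theorem real_part (Y Pr T n : ℝ) (k : ℕ) (hY : 32 ≤ Y) (hPr0 : 0 < Pr) (hPr : Pr ≤ Y) (hT0 : 0 ≤ T)
    (hn : Y ^ 4 / (8 * Pr) - 1 ≤ n) (hTk : Pr / 3 ^ k ≤ T) (hk : (3 : ℝ) ^ k ≤ Pr) :
    Y ^ 4 / (32 * 3 ^ k) + 1 ≤ T * (3 / 4 * n - Y ^ 2 / 2) := by
  have h3 : (0 : ℝ) < 3 ^ k := by positivity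
  have hY0 : 0 < Y := by linarith
  have h1 : Y ^ 3 / 8 ≤ Y ^ 4 / (8 * Pr) := by
    rw [div_le_div_iff₀ (by norm_num) (by positivity)]
    have : Y ^ 3 * Pr ≤ Y ^ 3 * Y := mul_le_mul_of_nonneg_left hPr (by positivity)
    nlinarith
  have h2 : Y ^ 2 ≤ Y ^ 3 / 32 := by
    have : Y ^ 3 = Y ^ 2 * Y := by ring
    rw [this]
    nlinarith [sq_nonneg Y]
  have h4 : 1024 ≤ Y ^ 2 := by nlinarith
  have h5 : Y ^ 4 / (16 * Pr) ≤ 3 / 4 * n - Y ^ 2 / 2 := by
    have e : Y ^ 4 / (16 * Pr) = Y ^ 4 / (8 * Pr) / 2 := by field_simp; norm_num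
    rw [e]
    linarith
  have h6 : Y ^ 4 / (16 * 3 ^ k) ≤ T * (Y ^ 4 / (16 * Pr)) := by
    have a1 : Pr / 3 ^ k * (Y ^ 4 / (16 * Pr)) ≤ T * (Y ^ 4 / (16 * Pr)) :=
      mul_le_mul_of_nonneg_right hTk (by positivity)
    have e : Pr / 3 ^ k * (Y ^ 4 / (16 * Pr)) = Y ^ 4 / (16 * 3 ^ k) := by
      field_simp
    linarith
  have h7 : T * (Y ^ 4 / (16 * Pr)) ≤ T * (3 / 4 * n - Y ^ 2 / 2) :=
    mul_le_mul_of_nonneg_left h5 hT0
  have h8 : 1 ≤ Y ^ 4 / (32 * 3 ^ k) := by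
    rw [le_div_iff₀ (by positivity)]
    have a1 : 32 * (3 : ℝ) ^ k ≤ 32 * Y := by linarith
    have a2 : 32 * Y ≤ Y ^ 4 := by
      have : Y ^ 4 = Y ^ 2 * Y ^ 2 := by ring
      nlinarith
    linarith
  have h9 : Y ^ 4 / (16 * 3 ^ k) = Y ^ 4 / (32 * 3 ^ k) + Y ^ 4 / (32 * 3 ^ k) := by
    field_simp; norm_num
  linarith

/-- uniform lower bound -/
theorem cnt_main (X : ℕ) (hX : 2 ^ 20 ≤ X) (P : Finset ℕ) (hP : ∀ q ∈ P, q.Prime ∧ q ≠ 2)
    (hprod : (∏ q ∈ P, q) ^ 4 ≤ X) (s c0 : ℤ) (hs : s = 1 ∨ s = -1) (hc0 : c0 = 1 ∨ c0 = 5)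
    (v : ℕ → ℤ) (hv : ∀ q ∈ P, v q = 1 ∨ v q = -1) :
    (X : ℝ) / (32 * 3 ^ P.card) ≤
      (({m : ℕ | m ≤ X ∧ ((s * (m : ℤ)) % 8 = c0 ∧ ¬ IsSquare (s * (m : ℤ))) ∧ Squarefree m ∧
        ∀ q ∈ P, jacobiSym (s * (m : ℤ)) q = v q}).ncard : ℝ) := by
  classical
  obtain ⟨T, hT1, hT2, hT3⟩ := classes s c0 hs hc0 v P hP hv
  set Pr := ∏ q ∈ P, q with hPr
  set M := 8 * Pr with hM
  have hPrpos : 0 < Pr := Finset.prod_pos fun q hq => (hP q hq).1.pos
  have hMpos : 0 < M := by omega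
  set K := X / M with hK
  have hKX : M * K ≤ X := Nat.mul_div_le X M
  have hcopt : ∀ t ∈ T, Nat.Coprime t M := by
    intro t ht
    obtain ⟨h8, hj⟩ := hT2 t ht
    have hodd : Nat.Coprime t 8 := by
      have h88 : (8 : ℕ) = 2 ^ 3 := by norm_num
      rw [h88]
      apply Nat.Coprime.pow_right
      rw [Nat.coprime_two_right]
      rcases Nat.even_or_odd t with he | ho
      · exfalso
        obtain ⟨r, hr⟩ := he
        rcases hs with rfl | rfl <;> rcases hc0 with rfl | rfl <;> omega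
      · exact ho
    rw [hM]
    refine Nat.Coprime.mul_right hodd ?_
    rw [hPr]
    refine Nat.Coprime.prod_right fun q hq => ?_
    rw [Nat.coprime_comm, (hP q hq).1.coprime_iff_not_dvd]
    intro hd
    have h1 := hj q hq
    have h2 : jacobiSym (s * (t : ℤ)) q = 0 := by
      have : Fact q.Prime := ⟨(hP q hq).1⟩
      rw [← jacobiSym.legendreSym.to_jacobiSym, legendreSym.eq_zero_iff]
      have h3 : ((t : ℤ) : ZMod q) = 0 := by
        have := (ZMod.natCast_eq_zero_iff t q).2 hd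
        exact_mod_cast this
      push_cast at h3 ⊢
      rw [h3, mul_zero]
    rw [h2] at h1
    rcases hv q hq with h | h <;> rw [h] at h1 <;> norm_num at h1
  set A := (T ×ˢ range K).filter fun x => Squarefree (x.1 + M * x.2) with hA
  set f : ℕ × ℕ → ℕ := fun x => x.1 + M * x.2 with hf
  have hinj : Set.InjOn f (A : Set (ℕ × ℕ)) := by
    intro x hx y hy hxy
    rw [mem_coe, hA, mem_filter, mem_product] at hx hy
    have hx1 := hT1 _ hx.1.1
    have hy1 := hT1 _ hy.1.1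
    simp only [hf] at hxy
    have a1 : x.1 = y.1 := by
      have b := congrArg (· % M) hxy
      simp only [Nat.add_mul_mod_self_left] at b
      rwa [Nat.mod_eq_of_lt hx1, Nat.mod_eq_of_lt hy1] at b
    have a2 : x.2 = y.2 := by
      rw [a1] at hxy
      exact Nat.eq_of_mul_eq_mul_left hMpos (Nat.add_left_cancel hxy)
    exact Prod.ext a1 a2
  have hcardA : (A.card : ℝ) = ∑ t ∈ T, (((range K).filter
      fun k => Squarefree (t + M * k)).card : ℝ) := by
    have h1 : A.card = ∑ t ∈ T, ((range K).filter fun k => Squarefree (t + M * k)).card := by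
      rw [hA, Finset.card_filter, Finset.sum_product]
      refine Finset.sum_congr rfl fun t _ => ?_
      rw [Finset.card_filter]
    rw [h1]
    push_cast
    rfl
  have hlow : (T.card : ℝ) * (3 / 4 * (K : ℝ) - Real.sqrt X / 2) ≤ (A.card : ℝ) := by
    rw [hcardA, ← nsmul_eq_mul, ← Finset.sum_const]
    refine Finset.sum_le_sum fun t ht => ?_
    exact sqf_class M t K X (Dvd.intro _ rfl) (hcopt t ht) (hT1 t ht) hKX
  -- the target
  set Z : Set ℕ := {m : ℕ | m ≤ X ∧ ((s * (m : ℤ)) % 8 = c0 ∧ ¬ IsSquare (s * (m : ℤ))) ∧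
    Squarefree m ∧ ∀ q ∈ P, jacobiSym (s * (m : ℤ)) q = v q} with hZ
  have hZfin : Z.Finite := (Set.finite_Iic X).subset fun m hm => hm.1
  have hsub : ((A.image f : Finset ℕ) : Set ℕ) ⊆ Z ∪ {1} := by
    intro m hm
    rw [mem_coe, mem_image] at hm
    obtain ⟨x, hx, rfl⟩ := hm
    rw [hA, mem_filter, mem_product, mem_range] at hx
    obtain ⟨⟨hx1, hx2⟩, hx3⟩ := hx
    obtain ⟨h8, hj⟩ := hT2 x.1 hx1
    by_cases h1 : f x = 1
    · right; exact h1
    · left
      refine ⟨?_, ⟨?_, ?_⟩, hx3, ?_⟩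
      · have a1 : x.1 + M * x.2 < M * (x.2 + 1) := by
          have := hT1 _ hx1
          rw [mul_add, mul_one]; omega
        have a2 : M * (x.2 + 1) ≤ M * K := Nat.mul_le_mul_left _ hx2
        simp only [hf]
        omega
      · rw [← h8]
        refine Int.emod_eq_emod_iff_emod_sub_eq_zero.2 (Int.emod_eq_zero_of_dvd ?_)
        simp only [hf]
        refine ⟨s * (Pr : ℤ) * (x.2 : ℤ), ?_⟩
        rw [hM]
        push_cast
        ring
      · intro hsq
        exact h1 (sq_one s hs _ hx3 hsq)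
      · intro q hq
        rw [← hj q hq]
        refine jacobiSym.mod_left' ?_
        refine Int.emod_eq_emod_iff_emod_sub_eq_zero.2 (Int.emod_eq_zero_of_dvd ?_)
        obtain ⟨w, hw⟩ := Finset.dvd_prod_of_mem (fun q => q) hq
        refine ⟨s * (8 * (w : ℤ)) * (x.2 : ℤ), ?_⟩
        simp only [hf]
        have e : (Pr : ℤ) = (q : ℤ) * (w : ℤ) := by
          rw [hPr]
          exact_mod_cast hw
        rw [hM]
        push_cast
        rw [e]
        ring
  have hcard : (A.card : ℝ) ≤ (Z.ncard : ℝ) + 1 := by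
    have h1 : A.card ≤ (Z ∪ {1}).ncard := by
      rw [← Finset.card_image_of_injOn hinj, ← Set.ncard_coe_finset]
      exact Set.ncard_le_ncard hsub (hZfin.union (Set.finite_singleton 1))
    have h2 : (Z ∪ {1}).ncard ≤ Z.ncard + 1 := by
      refine (Set.ncard_union_le _ _).trans ?_
      rw [Set.ncard_singleton]
    exact_mod_cast h1.trans h2
  -- real computation
  set Y : ℝ := (X : ℝ) ^ (1 / 4 : ℝ) with hY
  have hX0 : (0 : ℝ) ≤ (X : ℝ) := Nat.cast_nonneg X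
  have hY4 : Y ^ 4 = X := by
    rw [hY, ← Real.rpow_natCast, ← Real.rpow_mul hX0]
    norm_num
  have hY2 : Real.sqrt X = Y ^ 2 := by
    rw [hY, ← Real.rpow_natCast, ← Real.rpow_mul hX0, Real.sqrt_eq_rpow]
    norm_num
  have hY0 : 0 ≤ Y := Real.rpow_nonneg hX0 _
  have hY32 : 32 ≤ Y := by
    have : (32 : ℝ) ^ 4 ≤ Y ^ 4 := by
      rw [hY4]
      have : ((2 ^ 20 : ℕ) : ℝ) ≤ (X : ℝ) := Nat.cast_le.2 hX
      norm_num at this ⊢
      exact this
    exact le_of_pow_le_pow_left₀ (by norm_num) hY0 this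
  have hPrY : (Pr : ℝ) ≤ Y := by
    have : (Pr : ℝ) ^ 4 ≤ Y ^ 4 := by
      rw [hY4]
      exact_mod_cast hprod
    exact le_of_pow_le_pow_left₀ (by norm_num) hY0 this
  have hPr0 : (0 : ℝ) < (Pr : ℝ) := by exact_mod_cast hPrpos
  have h3k : (3 : ℝ) ^ P.card ≤ (Pr : ℝ) := by
    rw [← Finset.prod_const, hPr]
    push_cast
    refine Finset.prod_le_prod (fun _ _ => by norm_num) fun q hq => ?_
    have h2 := (hP q hq).1.two_le
    have h3 := (hP q hq).2
    have : 3 ≤ q := by omega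
    exact_mod_cast this
  have hTPr : (Pr : ℝ) / 3 ^ P.card ≤ (T.card : ℝ) := by
    have h1 : ∏ q ∈ P, ((q : ℝ) - 1) = 2 ^ P.card * (T.card : ℝ) := by
      have := congrArg (fun z : ℤ => (z : ℝ)) hT3
      push_cast at this
      exact this
    have h2 : (2 : ℝ) ^ P.card * (Pr : ℝ) ≤ 3 ^ P.card * ∏ q ∈ P, ((q : ℝ) - 1) := by
      rw [← Finset.prod_const, ← Finset.prod_const, hPr]
      push_cast
      rw [← Finset.prod_mul_distrib, ← Finset.prod_mul_distrib]
      refine Finset.prod_le_prod (fun _ _ => by positivity) fun q hq => ?_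
      have h2 := (hP q hq).1.two_le
      have h3 := (hP q hq).2
      have h4 : (3 : ℝ) ≤ q := by exact_mod_cast (by omega : 3 ≤ q)
      linarith
    rw [h1] at h2
    rw [div_le_iff₀ (by positivity)]
    have h3 : (2 : ℝ) ^ P.card * (Pr : ℝ) ≤ 2 ^ P.card * ((T.card : ℝ) * 3 ^ P.card) := by
      linarith
    exact le_of_mul_le_mul_left h3 (by positivity)
  have hKl : Y ^ 4 / (8 * (Pr : ℝ)) - 1 ≤ (K : ℝ) := by
    have h1 : X < M * (K + 1) := by
      rw [hK]
      exact Nat.lt_mul_div_succ X hMpos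
    have h2 : (X : ℝ) < (M : ℝ) * ((K : ℝ) + 1) := by exact_mod_cast h1
    have h3 : Y ^ 4 / (8 * (Pr : ℝ)) ≤ (K : ℝ) + 1 := by
      rw [hY4, div_le_iff₀ (by positivity)]
      rw [hM] at h2
      push_cast at h2
      linarith
    linarith
  have hfin := real_part Y Pr T.card K P.card hY32 hPr0 hPrY (Nat.cast_nonneg _) hKl hTPr h3k
  rw [← hY2, hY4] at hfin
  linarith

end Pool.Agent.U684.QC
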